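import Pool.Agent.Helper57.SJ.Stmts2
import Pool.Agent.Helper59.SJ.TLT

/-! Row TLK: the sum over the primes in `(z, z^6]` at all points of almost all intervals, with a
small exceptional set. -/

set_option autoImplicit false

namespace Pool.Agent.Helper59.SJ

open MeasureTheory Set Filter Topology
open Pool.Agent.Helper57.QZ (zA Pz)
open Pool.Agent.Helper57.QZ.TL47 (sum_sq sum_abs)
open Pool.Agent.Helper57.SJ

namespace TLK

/-- the numerical estimate -/
theorem numericK {ε A B c η L h H B0 G C' : ℝ} {z k : ℕ} (hε : 0 < ε) (hε1 : ε < 1) (hA : 3 ≤ A)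
    (hAε : 8 ≤ A * ε) (hB : 1 ≤ B) (hη : 0 < η) (hB0 : 0 ≤ B0) (hC' : 0 < C')
    (hG : G = max 1 (4 * C' ^ 2 / η ^ 2)) (hc : c = ε / (400 * (B + 2))) (hL4 : 2 * (B + 4) ≤ L)
    (hℓ1 : 1 ≤ Real.log L) (hℓG : Real.log G ≤ Real.log L) (hLB : 2 * B0 / η ^ 2 ≤ L)
    (hL24 : 24 ≤ L) (hL5 : 48 * Real.exp (156 * (B + 2) / ε) * L ^ (38 * A + 1) ≤
      Real.exp (L / 2)) (hL6 : 4 * Real.exp (2 * (B + 1)) ≤ Real.exp (L / 2))
    (hz_le : (z : ℝ) ≤ L ^ A) (hz_ge : L ^ A / 2 ≤ z) (hH : 0 < H + 2) (hh : h = Real.log (H + 2))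
    (hh0 : 0 ≤ h) (hhc : h ≤ 2 + c * L) (hk : k = ⌈4 * (B + 2) * h / (ε * A * Real.log L)⌉₊ + 1) :
    (H + 2) * (1 + (4 * k + 2) * (Real.exp L * (k.factorial * (B0 * (z : ℝ) ^ (-(ε / 2))) ^ k) +
      2 * ((z : ℝ) ^ 6) ^ k * (2 * C' * (z : ℝ) ^ 6) ^ (2 * k)) / η ^ (2 * k)) ≤
      Real.exp L * Real.exp (-(B * h)) := by
  obtain ⟨ℓ, hℓ⟩ : ∃ ℓ : ℝ, ℓ = Real.log L := ⟨_, rfl⟩
  rw [← hℓ] at hℓ1 hℓG hk
  have hL0 : 0 < L := by linarith
  have hLe : Real.exp ℓ = L := by rw [hℓ, Real.exp_log hL0]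
  have hA0 : 0 < A := by linarith
  have hB0' : 0 < B := by linarith
  have hℓ0 : 0 < ℓ := by linarith
  have hz0 : (0 : ℝ) < z := lt_of_lt_of_le (by positivity) hz_ge
  have hHe : Real.exp h = H + 2 := by rw [hh, Real.exp_log hH]
  have hG1 : 1 ≤ G := by rw [hG]; exact le_max_left _ _
  have hx0 : 0 ≤ 4 * (B + 2) * h / (ε * A * ℓ) := by positivity
  have hcB : (B + 2) * (c * L) ≤ 1 / 400 * L := by
    rw [← mul_assoc]
    refine mul_le_mul_of_nonneg_right ?_ hL0.le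
    have e : (B + 2) * c = ε / 400 := by
      rw [hc]
      field_simp
    rw [e]
    linarith
  have hk_ge : 4 * (B + 2) * h / (ε * A * ℓ) + 1 ≤ k := by
    have := Nat.le_ceil (4 * (B + 2) * h / (ε * A * ℓ))
    rw [hk]
    push_cast
    linarith
  have hk_le : (k : ℝ) ≤ 4 * (B + 2) * h / (ε * A * ℓ) + 2 := by
    have := Nat.ceil_lt_add_one hx0
    rw [hk]
    push_cast
    linarith
  have hkL : (k : ℝ) ≤ L := by
    have h1 : 4 * (B + 2) * h / (ε * A * ℓ) ≤ (B + 2) * h / 2 := by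
      rw [div_le_iff₀ (by positivity)]
      have h2 : 8 * 1 ≤ A * ε * ℓ := mul_le_mul hAε hℓ1 (by norm_num) (by linarith)
      have h3 := mul_le_mul_of_nonneg_left h2 (by positivity : 0 ≤ (B + 2) * h / 2)
      linarith
    have h4 : (B + 2) * h ≤ (B + 2) * 2 + 1 / 400 * L := by
      have h5 := mul_le_mul_of_nonneg_left hhc (by positivity : 0 ≤ B + 2)
      linarith
    linarith
  have hk1 : (1 : ℝ) ≤ k := by linarith
  -- lower bound of the exponent
  have hklow : (B + 2) * h + 2 * ℓ ≤ k * (A * ε / 4 * ℓ) := by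
    have h1 := mul_le_mul_of_nonneg_right hk_ge (by positivity : 0 ≤ A * ε / 4 * ℓ)
    have h2 : (4 * (B + 2) * h / (ε * A * ℓ) + 1) * (A * ε / 4 * ℓ) =
        (B + 2) * h + A * ε / 4 * ℓ := by
      field_simp
    have h3 : 2 * ℓ ≤ A * ε / 4 * ℓ := mul_le_mul_of_nonneg_right (by linarith) hℓ0.le
    linarith
  have hkup : k * (19 * A * ℓ) ≤ 76 * (B + 2) * h / ε + 38 * A * ℓ := by
    have h1 := mul_le_mul_of_nonneg_right hk_le (by positivity : 0 ≤ 19 * A * ℓ)
    have h2 : (4 * (B + 2) * h / (ε * A * ℓ) + 2) * (19 * A * ℓ) =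
        76 * (B + 2) * h / ε + 38 * A * ℓ := by
      field_simp
      ring
    linarith
  have hη2 : 0 < η ^ (2 * k) := by positivity
  -- the diagonal
  have hQ1 : (k.factorial * (B0 * (z : ℝ) ^ (-(ε / 2))) ^ k) / η ^ (2 * k) ≤
      Real.exp (-((B + 2) * h + 2 * ℓ)) := by
    have h1 : (k.factorial : ℝ) ≤ (k : ℝ) ^ k := by exact_mod_cast Nat.factorial_le_pow k
    have h3 : (z : ℝ) ^ (-(ε / 2)) ≤ 2 * Real.exp (-(A * ε / 2 * ℓ)) := by
      have h31 : (z : ℝ) ^ (-(ε / 2)) ≤ (L ^ A / 2) ^ (-(ε / 2)) :=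
        Real.rpow_le_rpow_of_nonpos (by positivity) hz_ge (by linarith)
      have h32 : (L ^ A / 2) ^ (-(ε / 2)) = Real.exp (-(A * ε / 2 * ℓ)) * 2 ^ (ε / 2) := by
        rw [Real.div_rpow (by positivity) (by norm_num), ← Real.rpow_mul hL0.le,
          Real.rpow_neg (by norm_num : (0 : ℝ) ≤ 2), div_inv_eq_mul]
        congr 1
        rw [Real.rpow_def_of_pos hL0, hℓ]
        congr 1
        ring
      have h35 : (2 : ℝ) ^ (ε / 2) ≤ 2 := by
        calc (2 : ℝ) ^ (ε / 2) ≤ (2 : ℝ) ^ (1 : ℝ) :=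
              Real.rpow_le_rpow_of_exponent_le (by norm_num) (by linarith)
          _ = 2 := Real.rpow_one 2
      rw [h32] at h31
      refine h31.trans ?_
      rw [mul_comm]
      exact mul_le_mul_of_nonneg_right h35 (Real.exp_pos _).le
    have h4 : (k : ℝ) * (B0 * (z : ℝ) ^ (-(ε / 2))) / η ^ 2 ≤ Real.exp (-(A * ε / 4 * ℓ)) := by
      have h41 : (k : ℝ) * (B0 * (z : ℝ) ^ (-(ε / 2))) ≤
          L * (B0 * (2 * Real.exp (-(A * ε / 2 * ℓ)))) :=
        mul_le_mul hkL (mul_le_mul_of_nonneg_left h3 hB0) (by positivity) hL0.le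
      have h42 : (k : ℝ) * (B0 * (z : ℝ) ^ (-(ε / 2))) / η ^ 2 ≤
          (2 * B0 / η ^ 2) * (L * Real.exp (-(A * ε / 2 * ℓ))) := by
        rw [div_le_iff₀ (by positivity)]
        refine h41.trans (le_of_eq ?_)
        field_simp
      refine h42.trans ?_
      have h43 : (2 * B0 / η ^ 2) * (L * Real.exp (-(A * ε / 2 * ℓ))) ≤
          L * (L * Real.exp (-(A * ε / 2 * ℓ))) :=
        mul_le_mul_of_nonneg_right hLB (by positivity)
      refine h43.trans ?_
      have h44 : L * (L * Real.exp (-(A * ε / 2 * ℓ))) =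
          Real.exp (ℓ + (ℓ + -(A * ε / 2 * ℓ))) := by
        rw [Real.exp_add, Real.exp_add, hLe]
      rw [h44]
      apply Real.exp_le_exp.mpr
      have : 2 * ℓ ≤ A * ε / 4 * ℓ := mul_le_mul_of_nonneg_right (by linarith) hℓ0.le
      linarith
    calc (k.factorial * (B0 * (z : ℝ) ^ (-(ε / 2))) ^ k) / η ^ (2 * k)
        ≤ ((k : ℝ) ^ k * (B0 * (z : ℝ) ^ (-(ε / 2))) ^ k) / η ^ (2 * k) := by
          gcongr
      _ = ((k : ℝ) * (B0 * (z : ℝ) ^ (-(ε / 2))) / η ^ 2) ^ k := by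
          rw [← mul_pow, div_pow, ← pow_mul]
      _ ≤ (Real.exp (-(A * ε / 4 * ℓ))) ^ k := pow_le_pow_left₀ (by positivity) h4 k
      _ = Real.exp (-(k * (A * ε / 4 * ℓ))) := by
          rw [← Real.exp_nat_mul]
          congr 1
          ring
      _ ≤ Real.exp (-((B + 2) * h + 2 * ℓ)) := Real.exp_le_exp.mpr (neg_le_neg hklow)
  -- the other part
  have hQ2 : ((z : ℝ) ^ 6) ^ k * (2 * C' * (z : ℝ) ^ 6) ^ (2 * k) / η ^ (2 * k) ≤
      Real.exp (76 * (B + 2) * h / ε + 38 * A * ℓ) := by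
    have h1 : ((z : ℝ) ^ 6) ^ k * (2 * C' * (z : ℝ) ^ 6) ^ (2 * k) / η ^ (2 * k) =
        (4 * C' ^ 2 / η ^ 2 * (z : ℝ) ^ 18) ^ k := by
      have e1 : (2 * C' * (z : ℝ) ^ 6) ^ (2 * k) = ((2 * C' * (z : ℝ) ^ 6) ^ 2) ^ k := by
        rw [← pow_mul]
      have e2 : η ^ (2 * k) = (η ^ 2) ^ k := by rw [← pow_mul]
      rw [e1, e2, ← mul_pow, ← div_pow]
      congr 1
      ring
    have h2 : 4 * C' ^ 2 / η ^ 2 * (z : ℝ) ^ 18 ≤ G * (L ^ A) ^ 18 := by
      have h21 : 4 * C' ^ 2 / η ^ 2 ≤ G := by rw [hG]; exact le_max_right _ _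
      exact mul_le_mul h21 (pow_le_pow_left₀ hz0.le hz_le _) (by positivity) (by linarith)
    have h3 : G * (L ^ A) ^ 18 = Real.exp (Real.log G + 18 * A * ℓ) := by
      rw [Real.exp_add, Real.exp_log (by linarith)]
      congr 1
      rw [← Real.rpow_natCast, ← Real.rpow_mul hL0.le, Real.rpow_def_of_pos hL0, hℓ]
      congr 1
      push_cast
      ring
    have h4 : Real.log G + 18 * A * ℓ ≤ 19 * A * ℓ := by
      have : 1 * ℓ ≤ A * ℓ := mul_le_mul_of_nonneg_right (by linarith) hℓ0.le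
      linarith
    calc ((z : ℝ) ^ 6) ^ k * (2 * C' * (z : ℝ) ^ 6) ^ (2 * k) / η ^ (2 * k)
        = (4 * C' ^ 2 / η ^ 2 * (z : ℝ) ^ 18) ^ k := h1
      _ ≤ (Real.exp (19 * A * ℓ)) ^ k := by
          refine pow_le_pow_left₀ (by positivity) ?_ k
          rw [h3] at h2
          exact h2.trans (Real.exp_le_exp.mpr h4)
      _ = Real.exp (k * (19 * A * ℓ)) := by rw [← Real.exp_nat_mul]
      _ ≤ Real.exp (76 * (B + 2) * h / ε + 38 * A * ℓ) := Real.exp_le_exp.mpr hkup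
  have h4k : 4 * (k : ℝ) + 2 ≤ 6 * L := by linarith
  have hTB : ∀ X : ℝ, X * Real.exp (B * h) ≤ 1 / 4 * Real.exp L →
      X ≤ 1 / 4 * (Real.exp L * Real.exp (-(B * h))) := by
    intro X hX
    have h1 := mul_le_mul_of_nonneg_right hX (Real.exp_pos (-(B * h))).le
    have h2 : Real.exp (B * h) * Real.exp (-(B * h)) = 1 := by
      rw [← Real.exp_add, add_neg_cancel, Real.exp_zero]
    rw [mul_assoc, h2, mul_one] at h1
    linarith
  -- the three parts
  have hp1 : H + 2 ≤ 1 / 4 * (Real.exp L * Real.exp (-(B * h))) := by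
    apply hTB
    rw [← hHe, ← Real.exp_add]
    calc Real.exp (h + B * h) ≤ Real.exp (2 * (B + 1) + L / 2) := by
          apply Real.exp_le_exp.mpr
          have h5 := mul_le_mul_of_nonneg_left hhc (by positivity : 0 ≤ B + 1)
          have h6 : (B + 1) * (c * L) ≤ (B + 2) * (c * L) := by
            refine mul_le_mul_of_nonneg_right (by linarith) ?_
            rw [hc]
            positivity
          linarith
      _ = Real.exp (2 * (B + 1)) * Real.exp (L / 2) := Real.exp_add _ _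
      _ ≤ (1 / 4 * Real.exp (L / 2)) * Real.exp (L / 2) :=
          mul_le_mul_of_nonneg_right (by linarith) (Real.exp_pos _).le
      _ = 1 / 4 * Real.exp L := by
          rw [mul_assoc, ← Real.exp_add]
          congr 2
          ring
  have hp2 : (H + 2) * (4 * k + 2) * (Real.exp L *
      ((k.factorial * (B0 * (z : ℝ) ^ (-(ε / 2))) ^ k) / η ^ (2 * k))) ≤
      1 / 4 * (Real.exp L * Real.exp (-(B * h))) := by
    apply hTB
    calc (H + 2) * (4 * k + 2) * (Real.exp L *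
        ((k.factorial * (B0 * (z : ℝ) ^ (-(ε / 2))) ^ k) / η ^ (2 * k))) * Real.exp (B * h)
        ≤ (Real.exp h * (6 * L)) * (Real.exp L * Real.exp (-((B + 2) * h + 2 * ℓ))) *
            Real.exp (B * h) := by
          rw [← hHe]
          gcongr
      _ = 6 * (L * (Real.exp h * Real.exp (-((B + 2) * h + 2 * ℓ)) * Real.exp (B * h))) *
            Real.exp L := by ring
      _ ≤ 6 * (L * Real.exp (-(2 * ℓ))) * Real.exp L := by
          rw [← Real.exp_add, ← Real.exp_add]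
          have : Real.exp (h + -((B + 2) * h + 2 * ℓ) + B * h) ≤ Real.exp (-(2 * ℓ)) :=
            Real.exp_le_exp.mpr (by linarith)
          gcongr
      _ = 6 * (1 / L) * Real.exp L := by
          have : L * Real.exp (-(2 * ℓ)) = 1 / L := by
            have e1 : Real.exp (-(2 * ℓ)) = (L * L)⁻¹ := by
              rw [Real.exp_neg, two_mul, Real.exp_add, hLe]
            rw [e1]
            field_simp
          rw [this]
      _ ≤ 1 / 4 * Real.exp L := by
          refine mul_le_mul_of_nonneg_right ?_ (Real.exp_pos _).le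
          rw [mul_one_div, div_le_iff₀ hL0]
          linarith
  have hp3 : (H + 2) * (4 * k + 2) * (2 *
      (((z : ℝ) ^ 6) ^ k * (2 * C' * (z : ℝ) ^ 6) ^ (2 * k) / η ^ (2 * k))) ≤
      1 / 4 * (Real.exp L * Real.exp (-(B * h))) := by
    apply hTB
    have e1 : Real.exp h * Real.exp (76 * (B + 2) * h / ε + 38 * A * ℓ) * Real.exp (B * h) ≤
        Real.exp (156 * (B + 2) / ε) * Real.exp (L / 2) * Real.exp (38 * A * ℓ) := by
      rw [← Real.exp_add, ← Real.exp_add, ← Real.exp_add, ← Real.exp_add]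
      apply Real.exp_le_exp.mpr
      have e2 : (B + 2) * h ≤ (B + 2) * h / ε := by
        rw [le_div_iff₀ hε]
        exact mul_le_of_le_one_right (by positivity) hε1.le
      have e3 : (B + 2) * h / ε ≤ (B + 2) * (2 + c * L) / ε :=
        div_le_div_of_nonneg_right (mul_le_mul_of_nonneg_left hhc (by positivity)) hε.le
      have e4 : (B + 2) * (2 + c * L) / ε = 2 * ((B + 2) / ε) + L / 400 := by
        rw [hc]
        field_simp
      have e5 : 76 * (B + 2) * h / ε = 76 * ((B + 2) * h / ε) := by ring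
      have e6 : 156 * (B + 2) / ε = 78 * (2 * ((B + 2) / ε)) := by ring
      have e7 : 0 ≤ (B + 2) / ε := by positivity
      rw [e5, e6]
      rw [e4] at e3
      linarith
    calc (H + 2) * (4 * k + 2) * (2 *
        (((z : ℝ) ^ 6) ^ k * (2 * C' * (z : ℝ) ^ 6) ^ (2 * k) / η ^ (2 * k))) * Real.exp (B * h)
        ≤ (Real.exp h * (6 * L)) * (2 * Real.exp (76 * (B + 2) * h / ε + 38 * A * ℓ)) *
            Real.exp (B * h) := by
          rw [← hHe]
          gcongr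
      _ = 12 * L * (Real.exp h * Real.exp (76 * (B + 2) * h / ε + 38 * A * ℓ) *
            Real.exp (B * h)) := by ring
      _ ≤ 12 * L * (Real.exp (156 * (B + 2) / ε) * Real.exp (L / 2) *
            Real.exp (38 * A * ℓ)) :=
          mul_le_mul_of_nonneg_left e1 (by positivity)
      _ = (1 / 4) * (48 * Real.exp (156 * (B + 2) / ε) * L ^ (38 * A + 1)) *
            Real.exp (L / 2) := by
          have : L ^ (38 * A + 1) = Real.exp (38 * A * ℓ) * L := by
            rw [Real.rpow_add hL0, Real.rpow_one, Real.rpow_def_of_pos hL0, hℓ]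
            congr 2
            ring
          rw [this]
          ring
      _ ≤ (1 / 4) * Real.exp (L / 2) * Real.exp (L / 2) := by
          gcongr
      _ = 1 / 4 * Real.exp L := by
          have : Real.exp L = Real.exp (L / 2) * Real.exp (L / 2) := by
            rw [← Real.exp_add]
            congr 1
            ring
          rw [this]
          ring
  have hfin : (H + 2) * (1 + (4 * k + 2) * (Real.exp L *
      (k.factorial * (B0 * (z : ℝ) ^ (-(ε / 2))) ^ k) +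
      2 * ((z : ℝ) ^ 6) ^ k * (2 * C' * (z : ℝ) ^ 6) ^ (2 * k)) / η ^ (2 * k)) =
      (H + 2) + (H + 2) * (4 * k + 2) * (Real.exp L *
        ((k.factorial * (B0 * (z : ℝ) ^ (-(ε / 2))) ^ k) / η ^ (2 * k))) +
      (H + 2) * (4 * k + 2) * (2 *
        (((z : ℝ) ^ 6) ^ k * (2 * C' * (z : ℝ) ^ 6) ^ (2 * k) / η ^ (2 * k))) := by
    ring
  rw [hfin]
  have : 0 < Real.exp L * Real.exp (-(B * h)) := by positivity
  linarith

end TLK

open TLK in
theorem st_TLK (hSUP : ST_SUP) : ST_TLK := by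
  intro ε hε C η hC hη
  have hε0 : 0 < ε := hε.1
  have hε1 : ε < 1 := by linarith [hε.2]
  obtain ⟨C', hC'⟩ : ∃ C' : ℝ, C' = C * (1 + 2 / ε) := ⟨_, rfl⟩
  have hC'0 : 0 < C' := by rw [hC']; positivity
  obtain ⟨S0, hS0⟩ : ∃ S0 : ℝ, S0 = ∑' n : ℕ, (n : ℝ) ^ (-(1 + ε / 2 / 2)) := ⟨_, rfl⟩
  have hS00 : 0 ≤ S0 := by rw [hS0]; exact tsum_nonneg fun n => by positivity
  obtain ⟨B0, hB0⟩ : ∃ B0 : ℝ, B0 = C' ^ 2 * (16 / (ε / 2) ^ 2) * S0 := ⟨_, rfl⟩
  have hB00 : 0 ≤ B0 := by rw [hB0]; positivity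
  obtain ⟨G, hG⟩ : ∃ G : ℝ, G = max 1 (4 * C' ^ 2 / η ^ 2) := ⟨_, rfl⟩
  refine ⟨max 3 (8 / ε), le_max_left _ _, fun A hA B hB => ?_⟩
  have hA3 : 3 ≤ A := (le_max_left _ _).trans hA
  have hAε : 8 ≤ A * ε := by
    have := (le_max_right 3 (8 / ε)).trans hA
    rwa [div_le_iff₀ hε0] at this
  obtain ⟨c, hc⟩ : ∃ c : ℝ, c = ε / (400 * (B + 2)) := ⟨_, rfl⟩
  have hc0 : 0 < c := by rw [hc]; positivity
  have hc400 : c ≤ 1 / 400 := by
    rw [hc, div_le_div_iff₀ (by positivity) (by norm_num)]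
    nlinarith
  refine ⟨c, ⟨hc0, by linarith⟩, ?_⟩
  -- the conditions on `L`
  have hlim : ∀ᶠ L : ℝ in atTop, 48 * Real.exp (156 * (B + 2) / ε) * L ^ (38 * A + 1) ≤
      Real.exp (L / 2) := by
    have h1 := (isLittleO_rpow_exp_pos_mul_atTop (38 * A + 1)
      (show (0 : ℝ) < 1 / 2 by norm_num)).bound
      (show 0 < 1 / (48 * Real.exp (156 * (B + 2) / ε)) by positivity)
    filter_upwards [h1, eventually_ge_atTop (1 : ℝ)] with L h2 h3
    rw [Real.norm_of_nonneg (by positivity), Real.norm_of_nonneg (Real.exp_pos _).le] at h2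
    have h4 : (1 / 2 : ℝ) * L = L / 2 := by ring
    rw [h4, div_mul_eq_mul_div, le_div_iff₀ (by positivity)] at h2
    linarith
  have hlim2 : ∀ᶠ L : ℝ in atTop, 4 * Real.exp (2 * (B + 1)) ≤ Real.exp (L / 2) := by
    have h1 : Tendsto (fun L : ℝ => Real.exp (L / 2)) atTop atTop :=
      Real.tendsto_exp_atTop.comp (tendsto_id.atTop_div_const (by norm_num))
    exact h1.eventually_ge_atTop _
  have hlim3 : ∀ᶠ L : ℝ in atTop, max 1 (Real.log G) ≤ Real.log L :=
    Real.tendsto_log_atTop.eventually_ge_atTop _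
  obtain ⟨L₀, hL₀⟩ := eventually_atTop.mp (hlim.and (hlim2.and (hlim3.and
    ((eventually_ge_atTop (2 * (B + 4))).and ((eventually_ge_atTop (2 * B0 / η ^ 2)).and
    (eventually_ge_atTop (24 : ℝ)))))))
  refine ⟨max 4 (Real.exp L₀), le_max_left _ _, fun T hT H hH2' hHT a ha => ?_⟩
  have hH1 : 1 ≤ H := by linarith
  have hT4 : 4 ≤ T := (le_max_left _ _).trans hT
  have hT0 : 0 < T := by linarith
  obtain ⟨L, hL⟩ : ∃ L : ℝ, L = Real.log T := ⟨_, rfl⟩
  have hLL₀ : L₀ ≤ L := by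
    rw [hL, Real.le_log_iff_exp_le hT0]
    exact (le_max_right _ _).trans hT
  obtain ⟨f1, f2, f3, f4, f5, f6⟩ := hL₀ L hLL₀
  have hTL : Real.exp L = T := by rw [hL, Real.exp_log hT0]
  have hL0 : 0 < L := by linarith
  obtain ⟨z, hz⟩ : ∃ z : ℕ, z = zA A T := ⟨_, rfl⟩
  rw [← hz] at ha ⊢
  have hLA1 : 1 ≤ L ^ A := Real.one_le_rpow (by linarith) (by linarith)
  have hzL : z = ⌊L ^ A⌋₊ := by rw [hz, zA, hL]
  have hz_le : (z : ℝ) ≤ L ^ A := by rw [hzL]; exact Nat.floor_le (by positivity)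
  have hz1 : 1 ≤ z := by
    rw [hzL]
    exact Nat.le_floor (by simpa using hLA1)
  have hz_ge : L ^ A / 2 ≤ z := by
    have h1 : L ^ A < z + 1 := by rw [hzL]; exact Nat.lt_floor_add_one _
    have h2 : (1 : ℝ) ≤ z := by exact_mod_cast hz1
    linarith
  obtain ⟨h, hh⟩ : ∃ h : ℝ, h = Real.log (H + 2) := ⟨_, rfl⟩
  have hH2 : 0 < H + 2 := by linarith
  have hh0 : 0 ≤ h := by rw [hh]; exact Real.log_nonneg (by linarith)
  have hTc : T ^ c = Real.exp (c * L) := by
    rw [Real.rpow_def_of_pos hT0, hL, mul_comm]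
  have hhc : h ≤ 2 + c * L := by
    have h1 : 1 ≤ T ^ c := Real.one_le_rpow (by linarith) hc0.le
    have h2 : H + 2 ≤ 3 * T ^ c := by linarith
    rw [hh]
    calc Real.log (H + 2) ≤ Real.log (3 * T ^ c) := Real.log_le_log hH2 h2
      _ = Real.log 3 + c * L := by
          rw [hTc, Real.log_mul (by norm_num) (Real.exp_pos _).ne', Real.log_exp]
      _ ≤ 2 + c * L := by
          have := Real.log_le_sub_one_of_pos (show (0 : ℝ) < 3 by norm_num)
          linarith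
  obtain ⟨k, hk⟩ : ∃ k : ℕ, k = ⌈4 * (B + 2) * h / (ε * A * Real.log L)⌉₊ + 1 := ⟨_, rfl⟩
  have hnum := numericK (z := z) (k := k) (H := H) hε0 hε1 hA3 hAε hB hη hB00 hC'0 hG hc f4
    ((le_max_left _ _).trans f3) ((le_max_right _ _).trans f3) f5 f6 f1 f2 hz_le hz_ge hH2 hh
    hh0 hhc hk
  have hHT2 : H + 2 ≤ T := by
    have h1 : h ≤ L := by
      have h2 : c * L ≤ 1 / 400 * L := mul_le_mul_of_nonneg_right hc400 hL0.le
      linarith
    calc H + 2 = Real.exp h := by rw [hh, Real.exp_log hH2]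
      _ ≤ Real.exp L := Real.exp_le_exp.mpr h1
      _ = T := hTL
  have hcoef := coef hε0 hC z a ha
  rw [← hC'] at hcoef
  have hsq := sum_sq (ε / 2) C' (by positivity) hC'0 z hz1
    (fun p => ((‖a p‖ * (1 + Real.log p) : ℝ) : ℂ)) hcoef
  have hab := sum_abs (ε / 2) C' (by positivity) hC'0 z hz1
    (fun p => ((‖a p‖ * (1 + Real.log p) : ℝ) : ℂ)) hcoef
  rw [← hS0, ← hB0] at hsq
  have hnn : ∀ p ∈ Pz z, ‖((‖a p‖ * (1 + Real.log p) : ℝ) : ℂ)‖ = ‖a p‖ * (1 + Real.log p) := by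
    intro p hp
    rw [Pz, Finset.mem_filter, Finset.mem_Icc] at hp
    have hp1 : (1 : ℝ) ≤ p := by exact_mod_cast (by omega : 1 ≤ p)
    have hl : 0 ≤ Real.log p := Real.log_nonneg hp1
    rw [Complex.norm_real, Real.norm_of_nonneg (by positivity)]
  obtain ⟨E, hE1, hE2, hE3⟩ := hSUP (Pz z) a ((z : ℝ) ^ 6) (B0 * (z : ℝ) ^ (-(ε / 2)))
    (2 * C' * (z : ℝ) ^ 6) η H T k (fun p hp => (Finset.mem_filter.mp hp).2)
    (fun p hp => by
      rw [Pz, Finset.mem_filter, Finset.mem_Icc] at hp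
      exact_mod_cast hp.1.2) (one_le_pow₀ (by exact_mod_cast hz1)) (by omega) hη hH1 hHT2
    (by
      refine le_trans (le_of_eq ?_) hsq
      exact Finset.sum_congr rfl fun p hp => by rw [hnn p hp])
    (by
      refine le_trans (le_of_eq ?_) hab
      exact Finset.sum_congr rfl fun p hp => by rw [hnn p hp])
  refine ⟨E, hE1, hE2.trans ?_, hE3⟩
  have hexp : Real.exp (-(B * h)) ≤ H ^ (-B) := by
    rw [Real.rpow_def_of_pos (by linarith : 0 < H)]
    apply Real.exp_le_exp.mpr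
    have h1 : Real.log H ≤ h := by
      rw [hh]
      exact Real.log_le_log (by linarith) (by linarith)
    have h2 := mul_le_mul_of_nonneg_left h1 (by linarith : 0 ≤ B)
    linarith
  rw [← hTL]
  exact hnum.trans (mul_le_mul_of_nonneg_left hexp (Real.exp_pos _).le)

end Pool.Agent.Helper59.SJ
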